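import Pool.Agent.ClassOne.Main

/-!
# MP_91ad52_an: class one unitary representations of the abstract group `SO(n)`

For every `n ≥ 4` we classify the class one unitary representations of `SO(n)`, no continuity
being assumed: the associated state is a normalised Gegenbauer polynomial of `γ₁₁`, or `χ`, or
`γ₁₁ χ`.  For `n = 3` we prove the same under the assumption that the state has a limit
as `γ₁₁` increases to `1`.

Here `SO n` is Mathlib's `Matrix.specialOrthogonalGroup (Fin n) ℝ` (no topology is used),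
a unitary representation is a group homomorphism `π : SO n →* (H ≃ₗᵢ[ℂ] H)` into the group of
linear isometric equivalences of a complex Hilbert space `H`, and
`fixedSpace π i0` is the space of vectors fixed by all `g` whose column `i0` is `e_{i0}`
(for `i0 = 0` these are the block matrices `diag(1, A)`, `A ∈ SO(n-1)`).
-/

open Matrix Filter Topology
open scoped InnerProductSpace

namespace Pool.Agent.Results.MP_91ad52_an.ClassOneSOn

open Pool.Agent.ClassOne

/-- the three types of states of the question, in terms of the entry `g i0 i0`: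
normalised Gegenbauer polynomial with parameter `(n-2)/2`, or `χ`, or `g i0 i0 * χ`. -/
def Listed (n : ℕ) (i0 : Fin n) (φ : SO n → ℂ) : Prop :=
  (∃ k : ℕ, ∀ g : SO n, φ g =
    ((gegen (((n : ℝ) - 2) / 2) (g.1 i0 i0) k / gegen (((n : ℝ) - 2) / 2) 1 k : ℝ) : ℂ)) ∨
  (∀ g : SO n, φ g = if g.1 i0 i0 = 1 ∨ g.1 i0 i0 = -1 then 1 else 0) ∨
  (∀ g : SO n, φ g =
    if g.1 i0 i0 = 1 ∨ g.1 i0 i0 = -1 then ((g.1 i0 i0 : ℝ) : ℂ) else 0)

/-- `FixesE i0` really describes the stabiliser of the basis vector `e_{i0}`. -/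
theorem fixesE_iff_mulVec {n : ℕ} (i0 : Fin n) (g : SO n) :
    FixesE i0 g ↔ g.1 *ᵥ Pi.single i0 1 = Pi.single i0 1 := fixesE_iff i0 g

/-- the normalising constants do not vanish -/
theorem gegen_one_ne_zero (n k : ℕ) (hn : 3 ≤ n) : gegen (((n : ℝ) - 2) / 2) 1 k ≠ 0 :=
  (Gegen_proof n k 0 hn).1

theorem exists_entry {n : ℕ} (hn : 3 ≤ n) (i0 : Fin n) {t : ℝ} (ht : t ∈ Set.Ioo (-1 : ℝ) 1) :
    ∃ g : SO n, g.1 i0 i0 = t := by
  obtain ⟨i1, hi1⟩ : ∃ i1 : Fin n, i1 ≠ i0 := by
    have : Nontrivial (Fin n) := Fin.nontrivial_iff_two_le.2 (by omega)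
    exact exists_ne i0
  have h1 : 0 ≤ 1 - t ^ 2 := by nlinarith [ht.1, ht.2]
  have hx : (t • Pi.single i0 (1 : ℝ) + Real.sqrt (1 - t ^ 2) • Pi.single i1 (1 : ℝ)) ⬝ᵥ
      (t • Pi.single i0 (1 : ℝ) + Real.sqrt (1 - t ^ 2) • Pi.single i1 (1 : ℝ)) = 1 := by
    simp only [add_dotProduct, dotProduct_add, smul_dotProduct, dotProduct_smul,
      single_one_dotProduct, smul_eq_mul]
    rw [Pi.single_eq_same, Pi.single_eq_same, Pi.single_eq_of_ne hi1,
      Pi.single_eq_of_ne hi1.symm]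
    have := Real.mul_self_sqrt h1
    nlinarith
  obtain ⟨g, hg⟩ := exists_SO TwoPoint_proof hn i0 _ hx
  refine ⟨g, ?_⟩
  have h2 : (g.1 *ᵥ Pi.single i0 1) i0 = g.1 i0 i0 := by
    rw [Matrix.mulVec_single_one, Matrix.col_apply]
  rw [← h2, hg]
  simp [hi1.symm]

/-- **Main result.**
Let `n ≥ 3` and let `π` be a unitary representation of the abstract group `SO(n)` on a
complex Hilbert space such that the space of vectors fixed by the stabiliser of `e_{i0}` is
one-dimensional, spanned by the unit vector `v`.  Suppose that `n ≥ 4`, or that the state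
has a limit as `g i0 i0` increases to `1`.  Then the state `g ↦ ⟨π(g) v, v⟩` is one of the
three listed functions. -/
theorem result.{u} (n : ℕ) (hn : 3 ≤ n) (H : Type u) [NormedAddCommGroup H]
    [InnerProductSpace ℂ H] [CompleteSpace H] (π : SO n →* (H ≃ₗᵢ[ℂ] H)) (i0 : Fin n)
    (hclass : Module.finrank ℂ (fixedSpace π i0) = 1)
    (v : H) (hv : v ∈ fixedSpace π i0) (hv1 : ‖v‖ = 1)
    (hlim : 4 ≤ n ∨ ∃ a : ℝ, ∀ ε > 0, ∃ δ > 0, ∀ g : SO n,
      1 - δ < g.1 i0 i0 → g.1 i0 i0 < 1 → |(inner ℂ v (π g v)).re - a| < ε) :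
    Listed n i0 (fun g => inner ℂ v (π g v)) := by
  obtain ⟨D, hD⟩ := Build_of_TwoPoint TwoPoint_proof n H π i0 hn hclass v hv hv1
  rcases hlim with hn4 | hlim
  · exact main_of_limit n hn H π i0 v D hD (Limit_proof n H D.V D.f hn4 D.f_one D.inner_V)
  · refine main_of_limit n hn H π i0 v D hD ?_
    obtain ⟨a, ha⟩ := hlim
    refine ⟨a, ?_⟩
    rw [Metric.tendsto_nhds]
    intro ε hε
    obtain ⟨δ, hδ, h⟩ := ha ε hε
    have h2 : ∀ᶠ t in 𝓝[<] (1 : ℝ), t ∈ Set.Ioo (max (-1) (1 - δ)) 1 :=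
      Ioo_mem_nhdsLT (max_lt (by norm_num) (by linarith))
    filter_upwards [h2] with t ht
    obtain ⟨g, hg⟩ := exists_entry hn i0 (t := t) ⟨lt_of_le_of_lt (le_max_left _ _) ht.1, ht.2⟩
    have h3 := h g (by rw [hg]; exact lt_of_le_of_lt (le_max_right _ _) ht.1) (by rw [hg]; exact ht.2)
    have h4 := D.state i0 g
    rw [hD, hg] at h4
    rw [h4, Complex.ofReal_re] at h3
    rw [Real.dist_eq]
    exact h3

/-- sanity check: the trivial representation on `ℂ` is of class one (so the hypotheses of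
`result` can be met) -/
theorem trivial_class_one (n : ℕ) (i0 : Fin n) :
    Module.finrank ℂ (fixedSpace (1 : SO n →* (ℂ ≃ₗᵢ[ℂ] ℂ)) i0) = 1 := by
  have : fixedSpace (1 : SO n →* (ℂ ≃ₗᵢ[ℂ] ℂ)) i0 = ⊤ := by
    rw [eq_top_iff]
    intro w _ g _
    simp
  rw [this, finrank_top]
  simp

end Pool.Agent.Results.MP_91ad52_an.ClassOneSOn
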